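import Pool.Agent.Helper98.HQ.Spec

/-!
# HQ, part FORCE: forced coalescence
-/

set_option autoImplicit false

open MeasureTheory Filter Topology
open scoped ENNReal NNReal
open Pool.Agent.Helper98.HQ

namespace Pool.Agent.Helper85.HQ.FORCE

lemma adm_kw {k : ℕ} (w : Fin k → ℝ) (s t : ℝ) : Adm (kw w s t) :=
  ⟨by unfold kw srt; exact Tuple.monotone_sort _, fun _ => le_max_right _ _⟩

open Classical in
theorem main (hIDLE : S_IDLE) (hCNT : S_CNT) : S_FORCE := by
  intro k s0 t0 R hk hs0 ht0 hst hR
  obtain ⟨n1, hn1⟩ := hIDLE k s0 t0 R hk hs0 ht0 hst hR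
  obtain ⟨n2, hn2⟩ := exists_nat_ge (s0 / t0)
  refine ⟨n1 + n2, fun ω hω x y hx hy hxR hyR => ?_⟩
  have hX := hn1 ω hω x hx hxR
  have hY := hn1 ω hω y hy hyR
  have hadm : ∀ (x : Fin k → ℝ), Adm x → ∀ n, Adm (pth (fun _ => 1) x ω n) := by
    intro x hx n
    cases n with
    | zero => exact hx
    | succ n => exact adm_kw _ _ _
  have key : ∀ j : ℕ, ∀ u : ℝ, max (s0 - j * t0) 0 ≤ u →
      (Finset.univ.filter fun i => u < pth (fun _ => 1) x ω (n1 + j) i).card =
      (Finset.univ.filter fun i => u < pth (fun _ => 1) y ω (n1 + j) i).card := by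
    intro j
    induction j with
    | zero =>
      intro u hu
      have h0 : s0 ≤ u := by
        have := (le_max_left _ _).trans hu
        simpa using this
      rw [Finset.filter_false_of_mem, Finset.filter_false_of_mem]
      · intro i _
        exact not_lt.2 (((hY (n1 + 0) (by omega)).2 i).trans h0)
      · intro i _
        exact not_lt.2 (((hX (n1 + 0) (by omega)).2 i).trans h0)
    | succ j ih =>
      intro u hu
      have h1 := (hCNT k (pth (fun _ => 1) x ω (n1 + j)) (pth (fun _ => 1) y ω (n1 + j)) hk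
        (hadm x hx _) (hadm y hy _)).2 (1 * max (ω (n1 + j)).2 0) (max (ω (n1 + j)).1 0)
        (max (s0 - j * t0) 0) (by positivity) (le_max_right _ _) (le_max_right _ _)
        (fun i hi => ⟨(hX _ (by omega)).1 i hi, (hY _ (by omega)).1 i hi⟩) ih u
      have h2 : max (max (s0 - j * t0) 0 - max (ω (n1 + j)).1 0) 0 ≤ u := by
        refine le_trans ?_ hu
        have hT : t0 ≤ max (ω (n1 + j)).1 0 := (hω (n1 + j)).2.2.trans (le_max_left _ _)
        refine max_le ?_ (le_max_right _ _)
        rcases le_total (s0 - j * t0) 0 with h | h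
        · rw [max_eq_right h]
          refine le_trans ?_ (le_max_right _ _)
          linarith
        · rw [max_eq_left h]
          refine le_trans ?_ (le_max_left _ _)
          push_cast
          linarith
      exact h1 h2
  refine (hCNT k _ _ hk (hadm x hx _) (hadm y hy _)).1 fun u hu => key n2 u ?_
  refine max_le ?_ hu
  rw [div_le_iff₀ ht0] at hn2
  linarith

end Pool.Agent.Helper85.HQ.FORCE
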