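import Pool.Agent.Helper98.HQ.Spec

/-!
# HQ, part PSI: convergence of the mean of the squares of the negative parts
-/

set_option autoImplicit false

open MeasureTheory Filter Topology
open scoped ENNReal NNReal
open Pool.Agent.Helper98.HQ

namespace Pool.Agent.Helper85.HQ.PSI

lemma minsq_le {a T : ℝ} (hT : 0 ≤ T) (ha : -T ≤ a) : (min a 0) ^ 2 ≤ T ^ 2 := by
  have h1 : min a 0 ≤ 0 := min_le_right _ _
  have h2 : -T ≤ min a 0 := le_min ha (by linarith)
  nlinarith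

lemma minsq_sub {a b T : ℝ} (ha : -T ≤ a) (hb : -T ≤ b) (hT : 0 ≤ T) :
    |(min a 0) ^ 2 - (min b 0) ^ 2| ≤ 2 * T * |a - b| := by
  have e : (min a 0) ^ 2 - (min b 0) ^ 2 = (min a 0 + min b 0) * (min a 0 - min b 0) := by ring
  rw [e, abs_mul]
  have h1 : |min a 0 + min b 0| ≤ 2 * T := by
    have h1 : min a 0 ≤ 0 := min_le_right _ _
    have h2 : -T ≤ min a 0 := le_min ha (by linarith)
    have h3 : min b 0 ≤ 0 := min_le_right _ _
    have h4 : -T ≤ min b 0 := le_min hb (by linarith)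
    rw [abs_le]; constructor <;> linarith
  have h2 : |min a 0 - min b 0| ≤ |a - b| := by
    have := abs_min_sub_min_le_max a 0 b 0
    simpa using this
  exact mul_le_mul h1 h2 (abs_nonneg _) (by linarith)

variable {m : ℕ}

/-- the shift of one coordinate -/
noncomputable def xx (c : ℝ) (w : Fin (m + 1) → ℝ) (u : ℝ × ℝ) (i : Fin (m + 1)) : ℝ :=
  w i + (if (i : ℕ) = 0 then c * max u.2 0 else 0) - max u.1 0

lemma xx_ge {c : ℝ} (hc : 0 ≤ c) {w : Fin (m + 1) → ℝ} (hw : ∀ i, 0 ≤ w i) (u : ℝ × ℝ)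
    (i : Fin (m + 1)) : -max u.1 0 ≤ xx c w u i := by
  unfold xx
  have h1 : 0 ≤ (if (i : ℕ) = 0 then c * max u.2 0 else 0) := by
    split_ifs
    · exact mul_nonneg hc (le_max_right _ _)
    · exact le_rfl
  have := hw i
  linarith

lemma nsq_nonneg (c : ℝ) (w : Fin (m + 1) → ℝ) (u : ℝ × ℝ) : 0 ≤ nsq c w u :=
  Finset.sum_nonneg fun _ _ => sq_nonneg _

lemma nsq_le {c : ℝ} (hc : 0 ≤ c) {w : Fin (m + 1) → ℝ} (hw : ∀ i, 0 ≤ w i) (u : ℝ × ℝ) :
    nsq c w u ≤ (m + 1) * u.1 ^ 2 := by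
  have h0 : (max u.1 0) ^ 2 ≤ u.1 ^ 2 := by
    rcases le_total u.1 0 with h | h
    · rw [max_eq_right h, zero_pow two_ne_zero]; exact sq_nonneg _
    · rw [max_eq_left h]
  calc nsq c w u ≤ ∑ _i : Fin (m + 1), u.1 ^ 2 :=
        Finset.sum_le_sum fun i _ => (minsq_le (le_max_right _ _) (xx_ge hc hw u i)).trans h0
    _ = (m + 1) * u.1 ^ 2 := by simp

lemma nsq_c {c c' : ℝ} (hc : 0 ≤ c) (hc' : 0 ≤ c') {w : Fin (m + 1) → ℝ} (hw : ∀ i, 0 ≤ w i)
    (u : ℝ × ℝ) : |nsq c w u - nsq c' w u| ≤ 2 * |c - c'| * (max u.1 0 * max u.2 0) := by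
  have h1 : nsq c w u - nsq c' w u =
      ∑ i : Fin (m + 1), ((min (xx c w u i) 0) ^ 2 - (min (xx c' w u i) 0) ^ 2) := by
    rw [Finset.sum_sub_distrib]; rfl
  rw [h1]
  calc |∑ i : Fin (m + 1), ((min (xx c w u i) 0) ^ 2 - (min (xx c' w u i) 0) ^ 2)|
      ≤ ∑ i : Fin (m + 1), |(min (xx c w u i) 0) ^ 2 - (min (xx c' w u i) 0) ^ 2| :=
        Finset.abs_sum_le_sum_abs _ _
    _ ≤ ∑ i : Fin (m + 1), (if i = 0 then 2 * |c - c'| * (max u.1 0 * max u.2 0) else 0) := by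
        refine Finset.sum_le_sum fun i _ => ?_
        refine (minsq_sub (xx_ge hc hw u i) (xx_ge hc' hw u i) (le_max_right _ _)).trans ?_
        have e : xx c w u i - xx c' w u i =
            (if (i : ℕ) = 0 then (c - c') * max u.2 0 else 0) := by
          unfold xx
          split_ifs <;> ring
        rw [e]
        by_cases hi : i = 0
        · subst hi
          simp only [Fin.val_zero, if_true]
          rw [abs_mul, abs_of_nonneg (le_max_right u.2 0)]
          apply le_of_eq; ring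
        · have : (i : ℕ) ≠ 0 := fun h => hi (Fin.ext h)
          simp [hi, this]
    _ = _ := by simp

lemma nsq_w {w w' : Fin (m + 1) → ℝ} (hw : ∀ i, 0 ≤ w i) (hw' : ∀ i, 0 ≤ w' i) (u : ℝ × ℝ) :
    |nsq 1 w u - nsq 1 w' u| ≤ max u.1 0 * (2 * ∑ i, |w i - w' i|) := by
  have h1 : nsq 1 w u - nsq 1 w' u =
      ∑ i : Fin (m + 1), ((min (xx 1 w u i) 0) ^ 2 - (min (xx 1 w' u i) 0) ^ 2) := by
    rw [Finset.sum_sub_distrib]; rfl
  rw [h1]
  calc |∑ i : Fin (m + 1), ((min (xx 1 w u i) 0) ^ 2 - (min (xx 1 w' u i) 0) ^ 2)|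
      ≤ ∑ i : Fin (m + 1), |(min (xx 1 w u i) 0) ^ 2 - (min (xx 1 w' u i) 0) ^ 2| :=
        Finset.abs_sum_le_sum_abs _ _
    _ ≤ ∑ i : Fin (m + 1), 2 * max u.1 0 * |w i - w' i| := by
        refine Finset.sum_le_sum fun i _ => ?_
        refine (minsq_sub (xx_ge zero_le_one hw u i) (xx_ge zero_le_one hw' u i)
          (le_max_right _ _)).trans ?_
        have e : xx 1 w u i - xx 1 w' u i = w i - w' i := by unfold xx; ring
        rw [e]
    _ = _ := by rw [← Finset.mul_sum]; ring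

lemma nsq_cont (c : ℝ) : Continuous fun z : (Fin (m + 1) → ℝ) × (ℝ × ℝ) => nsq c z.1 z.2 := by
  unfold nsq
  refine continuous_finsetSum _ fun i _ => ?_
  refine ((Continuous.sub (Continuous.add ?_ ?_) ?_).min continuous_const).pow 2
  · exact (continuous_apply i).comp continuous_fst
  · split_ifs
    · exact continuous_const.mul ((continuous_snd.comp continuous_snd).max continuous_const)
    · exact continuous_const
  · exact (continuous_fst.comp continuous_snd).max continuous_const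

/-- the mean over the input -/
noncomputable def Ph (ν : Measure (ℝ × ℝ)) (c : ℝ) (w : Fin (m + 1) → ℝ) : ℝ :=
  ∫ u, nsq c w u ∂ν

lemma Ph_meas (ν : Measure (ℝ × ℝ)) [IsProbabilityMeasure ν] (c : ℝ) :
    StronglyMeasurable (Ph (m := m) ν c) :=
  (nsq_cont (m := m) c).stronglyMeasurable.integral_prod_right'

lemma nsq_int {ν : Measure (ℝ × ℝ)} (hI : Inp (m + 1) ν) {c : ℝ} (hc : 0 ≤ c)
    {w : Fin (m + 1) → ℝ} (hw : ∀ i, 0 ≤ w i) : Integrable (fun u => nsq c w u) ν := by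
  refine Integrable.mono' (hI.T2.const_mul ((m : ℝ) + 1)) ?_ ?_
  · exact ((nsq_cont (m := m) c).comp (Continuous.prodMk_right w)).aestronglyMeasurable
  · refine Eventually.of_forall fun u => ?_
    rw [Real.norm_eq_abs, abs_of_nonneg (nsq_nonneg _ _ _)]
    exact nsq_le hc hw u

lemma Ph_nonneg (ν : Measure (ℝ × ℝ)) (c : ℝ) (w : Fin (m + 1) → ℝ) : 0 ≤ Ph ν c w :=
  integral_nonneg fun _ => nsq_nonneg _ _ _

lemma Ph_le {ν : Measure (ℝ × ℝ)} (hI : Inp (m + 1) ν) {c : ℝ} (hc : 0 ≤ c)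
    {w : Fin (m + 1) → ℝ} (hw : ∀ i, 0 ≤ w i) : Ph ν c w ≤ (m + 1) * ∫ u, u.1 ^ 2 ∂ν := by
  rw [← integral_const_mul]
  exact integral_mono (nsq_int hI hc hw) (hI.T2.const_mul _) fun u => nsq_le hc hw u

lemma max_int1 {ν : Measure (ℝ × ℝ)} (hI : Inp (m + 1) ν) :
    Integrable (fun u : ℝ × ℝ => max u.1 0) ν := by
  have := hI.prob
  refine Integrable.mono' (hI.T2.add (integrable_const (1 : ℝ))) ?_ ?_
  · exact (continuous_fst.max continuous_const).aestronglyMeasurable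
  · refine Eventually.of_forall fun u => ?_
    rw [Real.norm_eq_abs, abs_of_nonneg (le_max_right _ _)]
    change max u.1 0 ≤ u.1 ^ 2 + 1
    refine max_le ?_ (by positivity)
    nlinarith [sq_nonneg (u.1 - 1)]

lemma max_int12 {ν : Measure (ℝ × ℝ)} (hI : Inp (m + 1) ν) :
    Integrable (fun u : ℝ × ℝ => max u.1 0 * max u.2 0) ν := by
  refine Integrable.mono' (hI.T2.add hI.S2) ?_ ?_
  · exact ((continuous_fst.max continuous_const).mul
      (continuous_snd.max continuous_const)).aestronglyMeasurable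
  · refine Eventually.of_forall fun u => ?_
    rw [Real.norm_eq_abs, abs_of_nonneg (mul_nonneg (le_max_right _ _) (le_max_right _ _))]
    change max u.1 0 * max u.2 0 ≤ u.1 ^ 2 + u.2 ^ 2
    have h1 : (max u.1 0) ^ 2 ≤ u.1 ^ 2 := by
      rcases le_total u.1 0 with h | h
      · rw [max_eq_right h, zero_pow two_ne_zero]; exact sq_nonneg _
      · rw [max_eq_left h]
    have h2 : (max u.2 0) ^ 2 ≤ u.2 ^ 2 := by
      rcases le_total u.2 0 with h | h
      · rw [max_eq_right h, zero_pow two_ne_zero]; exact sq_nonneg _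
      · rw [max_eq_left h]
    nlinarith [sq_nonneg (max u.1 0 - max u.2 0), sq_nonneg (max u.1 0), sq_nonneg (max u.2 0)]

lemma Ph_c {ν : Measure (ℝ × ℝ)} (hI : Inp (m + 1) ν) {c c' : ℝ} (hc : 0 ≤ c) (hc' : 0 ≤ c')
    {w : Fin (m + 1) → ℝ} (hw : ∀ i, 0 ≤ w i) :
    |Ph ν c w - Ph ν c' w| ≤ 2 * |c - c'| * ∫ u, max u.1 0 * max u.2 0 ∂ν := by
  unfold Ph
  rw [← integral_sub (nsq_int hI hc hw) (nsq_int hI hc' hw), ← integral_const_mul]
  refine (abs_integral_le_integral_abs).trans ?_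
  exact integral_mono ((nsq_int hI hc hw).sub (nsq_int hI hc' hw)).abs
    ((max_int12 hI).const_mul _) fun u => nsq_c hc hc' hw u

lemma Ph_w {ν : Measure (ℝ × ℝ)} (hI : Inp (m + 1) ν) {w w' : Fin (m + 1) → ℝ}
    (hw : ∀ i, 0 ≤ w i) (hw' : ∀ i, 0 ≤ w' i) :
    |Ph ν 1 w - Ph ν 1 w'| ≤ (∫ u, max u.1 0 ∂ν) * (2 * ∑ i, |w i - w' i|) := by
  unfold Ph
  rw [← integral_sub (nsq_int hI zero_le_one hw) (nsq_int hI zero_le_one hw'),
    ← integral_mul_const]
  refine (abs_integral_le_integral_abs).trans ?_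
  exact integral_mono ((nsq_int hI zero_le_one hw).sub (nsq_int hI zero_le_one hw')).abs
    ((max_int1 hI).mul_const _) fun u => nsq_w hw hw' u

lemma Ph_int {ν : Measure (ℝ × ℝ)} (hI : Inp (m + 1) ν) {c : ℝ} (hc : 0 ≤ c)
    (π : Measure (Fin (m + 1) → ℝ)) [IsProbabilityMeasure π] (hadm : ∀ᵐ w ∂π, Adm w) :
    Integrable (Ph ν c) π := by
  have := hI.prob
  refine Integrable.mono' (integrable_const ((m + 1) * ∫ u, u.1 ^ 2 ∂ν))
    (Ph_meas ν c).aestronglyMeasurable ?_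
  filter_upwards [hadm] with w hw
  rw [Real.norm_eq_abs, abs_of_nonneg (Ph_nonneg _ _ _)]
  exact Ph_le hI hc hw.2

lemma Psi_le {ν : Measure (ℝ × ℝ)} (hI : Inp (m + 1) ν) {c : ℝ} (hc : 0 ≤ c)
    (π : Measure (Fin (m + 1) → ℝ)) [IsProbabilityMeasure π] (hadm : ∀ᵐ w ∂π, Adm w) :
    0 ≤ Psi ν c π ∧ Psi ν c π ≤ (m + 1) * ∫ u, u.1 ^ 2 ∂ν := by
  constructor
  · exact integral_nonneg fun w => Ph_nonneg ν c w
  · calc Psi ν c π = ∫ w, Ph ν c w ∂π := rfl
      _ ≤ ∫ _, (m + 1) * ∫ u, u.1 ^ 2 ∂ν ∂π := by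
        refine integral_mono_ae (Ph_int hI hc π hadm) (integrable_const _) ?_
        filter_upwards [hadm] with w hw
        exact Ph_le hI hc hw.2
      _ = _ := by simp

lemma Psi_c {ν : Measure (ℝ × ℝ)} (hI : Inp (m + 1) ν) {c c' : ℝ} (hc : 0 ≤ c) (hc' : 0 ≤ c')
    (π : Measure (Fin (m + 1) → ℝ)) [IsProbabilityMeasure π] (hadm : ∀ᵐ w ∂π, Adm w) :
    |Psi ν c π - Psi ν c' π| ≤ 2 * |c - c'| * ∫ u, max u.1 0 * max u.2 0 ∂ν := by
  change |∫ w, Ph ν c w ∂π - ∫ w, Ph ν c' w ∂π| ≤ _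
  rw [← integral_sub (Ph_int hI hc π hadm) (Ph_int hI hc' π hadm)]
  refine (abs_integral_le_integral_abs).trans ?_
  calc ∫ w, |Ph ν c w - Ph ν c' w| ∂π
      ≤ ∫ _, (2 * |c - c'| * ∫ u, max u.1 0 * max u.2 0 ∂ν) ∂π := by
        refine integral_mono_ae ((Ph_int hI hc π hadm).sub (Ph_int hI hc' π hadm)).abs
          (integrable_const _) ?_
        filter_upwards [hadm] with w hw
        exact Ph_c hI hc hc' hw.2
    _ = _ := by simp

theorem main (hWEAK : S_WEAK) : S_PSI := by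
  intro m ν β e πe π hF
  have hI := hF.inp
  have := hI.prob
  have := hF.st0.prob
  have hpj : ∀ j, IsProbabilityMeasure (πe j) := fun j => (hF.st j).prob
  set K : ℝ := (m + 1) * ∫ u, u.1 ^ 2 ∂ν + 1 with hK
  have hM0 : 0 ≤ (m + 1) * ∫ u, u.1 ^ 2 ∂ν :=
    mul_nonneg (by positivity) (integral_nonneg fun u => sq_nonneg _)
  have hK0 : 0 < K := by linarith
  set pos : (Fin (m + 1) → ℝ) → (Fin (m + 1) → ℝ) := fun w i => max (w i) 0 with hpos
  have hpos0 : ∀ w i, 0 ≤ pos w i := fun w i => le_max_right _ _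
  set φ : (Fin (m + 1) → ℝ) → ℝ≥0∞ := fun w => ENNReal.ofReal (Ph ν 1 (pos w) / K) with hφ
  have hposm : Measurable pos :=
    measurable_pi_iff.2 fun i => (measurable_pi_apply i).max measurable_const
  have hφm : Measurable φ :=
    (((Ph_meas ν 1).measurable.comp hposm).div_const K).ennreal_ofReal
  have hφ1 : ∀ w, φ w ≤ 1 := by
    intro w
    rw [hφ]
    refine ENNReal.ofReal_le_one.2 ?_
    rw [div_le_one hK0]
    have := Ph_le hI zero_le_one (hpos0 w)
    linarith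
  have hT0 : 0 ≤ ∫ u, max u.1 0 ∂ν := integral_nonneg fun u => le_max_right _ _
  have hLip : Lip (2 * (∫ u, max u.1 0 ∂ν) / K) φ := by
    intro x y
    have h1 := (abs_le.1 (Ph_w hI (hpos0 x) (hpos0 y))).2
    have h2 : ∑ i, |pos x i - pos y i| ≤ ∑ i, |x i - y i| := by
      refine Finset.sum_le_sum fun i _ => ?_
      have := abs_max_sub_max_le_abs (x i) (y i) 0
      exact this
    have h3 : Ph ν 1 (pos x) / K ≤ Ph ν 1 (pos y) / K +
        2 * (∫ u, max u.1 0 ∂ν) / K * ∑ i, |x i - y i| := by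
      have h4 : (∫ u, max u.1 0 ∂ν) * (2 * ∑ i, |pos x i - pos y i|) ≤
          2 * (∫ u, max u.1 0 ∂ν) * ∑ i, |x i - y i| := by
        have := mul_le_mul_of_nonneg_left h2 hT0
        linarith
      have h5 : Ph ν 1 (pos x) ≤ Ph ν 1 (pos y) +
        2 * (∫ u, max u.1 0 ∂ν) * ∑ i, |x i - y i| := by linarith
      calc Ph ν 1 (pos x) / K ≤ (Ph ν 1 (pos y) +
            2 * (∫ u, max u.1 0 ∂ν) * ∑ i, |x i - y i|) / K :=
            div_le_div_of_nonneg_right h5 hK0.le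
        _ = _ := by ring
    calc φ x ≤ ENNReal.ofReal (Ph ν 1 (pos y) / K +
          2 * (∫ u, max u.1 0 ∂ν) / K * ∑ i, |x i - y i|) := ENNReal.ofReal_le_ofReal h3
      _ ≤ _ := ENNReal.ofReal_add_le
  have hw := hWEAK m ν β e πe π hF _ φ (by positivity) hφm hφ1 hLip
  have hconv : ∀ (π : Measure (Fin (m + 1) → ℝ)), IsProbabilityMeasure π → (∀ᵐ w ∂π, Adm w) →
      ∫⁻ w, φ w ∂π = ENNReal.ofReal (Psi ν 1 π / K) := by
    intro π hp hadm
    have h1 : ∫⁻ w, φ w ∂π = ∫⁻ w, ENNReal.ofReal (Ph ν 1 w / K) ∂π := by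
      refine lintegral_congr_ae ?_
      filter_upwards [hadm] with w hw
      have : pos w = w := funext fun i => max_eq_left (hw.2 i)
      rw [hφ]
      simp only [this]
    rw [h1, ← ofReal_integral_eq_lintegral_ofReal ((Ph_int hI zero_le_one π hadm).div_const K)
      (Eventually.of_forall fun w => div_nonneg (Ph_nonneg _ _ _) hK0.le), integral_div]
    rfl
  rw [hconv π hF.st0.prob hF.st0.adm] at hw
  simp_rw [fun j => hconv (πe j) (hF.st j).prob (hF.st j).adm] at hw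
  have hψ0 : ∀ j, 0 ≤ Psi ν 1 (πe j) := fun j =>
    (Psi_le hI zero_le_one (πe j) (hF.st j).adm).1
  have h1 : Tendsto (fun j => Psi ν 1 (πe j) / K) atTop (𝓝 (Psi ν 1 π / K)) := by
    have := (ENNReal.tendsto_toReal ENNReal.ofReal_ne_top).comp hw
    have h0 : 0 ≤ Psi ν 1 π / K :=
      div_nonneg (Psi_le hI zero_le_one π hF.st0.adm).1 hK0.le
    rw [ENNReal.toReal_ofReal h0] at this
    refine this.congr fun j => ?_
    exact ENNReal.toReal_ofReal (div_nonneg (hψ0 j) hK0.le)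
  have h2 : Tendsto (fun j => Psi ν 1 (πe j)) atTop (𝓝 (Psi ν 1 π)) := by
    have := h1.mul_const K
    simpa [div_mul_cancel₀ _ hK0.ne'] using this
  have h3 : Tendsto (fun j => |Psi ν 1 (πe j) - Psi ν 1 π|) atTop (𝓝 0) := by
    have := (h2.sub_const (Psi ν 1 π)).abs
    simpa using this
  have h4 : Tendsto (fun j => 2 * |β * e j| * ∫ u, max u.1 0 * max u.2 0 ∂ν) atTop (𝓝 0) := by
    have := (((hF.lim.const_mul β).abs).const_mul 2).mul_const
      (∫ u, max u.1 0 * max u.2 0 ∂ν)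
    simpa using this
  have hpp : Tendsto (fun j => pp (e j)) atTop (𝓝 0) := by
    unfold pp
    have h5 : Tendsto (fun j => e j ^ 2 / (1 + e j ^ 2)) atTop (𝓝 (0 ^ 2 / (1 + 0 ^ 2))) :=
      (hF.lim.pow 2).div ((hF.lim.pow 2).const_add 1) (by norm_num)
    simpa using h5
  have h6 : Tendsto (fun j => pp (e j) * (2 * K)) atTop (𝓝 0) := by
    have := hpp.mul_const (2 * K)
    simpa using this
  rw [tendsto_iff_dist_tendsto_zero]
  have hsum := (h3.add h4).add h6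
  simp only [add_zero] at hsum
  refine squeeze_zero (fun _ => dist_nonneg) (fun j => ?_) hsum
  have hej := hF.e0 j
  have hβ := hF.β0
  have hpj0 : 0 ≤ pp (e j) := by unfold pp; positivity
  have ha : 0 ≤ 1 - β * e j := by linarith [hej.2]
  have hb : 0 ≤ 1 + β / e j := by
    have := div_nonneg hβ.le hej.1.le
    linarith
  have a1 := Psi_le hI ha (πe j) (hF.st j).adm
  have a2 := Psi_le hI hb (πe j) (hF.st j).adm
  have a3 := Psi_c hI ha zero_le_one (πe j) (hF.st j).adm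
  have e1 : |1 - β * e j - 1| = |β * e j| := by
    rw [show 1 - β * e j - 1 = -(β * e j) by ring, abs_neg]
  rw [e1] at a3
  rw [Real.dist_eq]
  have e2 : (1 - pp (e j)) * Psi ν (1 - β * e j) (πe j) +
      pp (e j) * Psi ν (1 + β / e j) (πe j) - Psi ν 1 π =
      (Psi ν 1 (πe j) - Psi ν 1 π) + (Psi ν (1 - β * e j) (πe j) - Psi ν 1 (πe j)) +
      pp (e j) * (Psi ν (1 + β / e j) (πe j) - Psi ν (1 - β * e j) (πe j)) := by ring
  rw [e2]
  refine (abs_add_le _ _).trans (add_le_add ((abs_add_le _ _).trans (add_le_add le_rfl a3)) ?_)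
  rw [abs_mul, abs_of_nonneg hpj0]
  refine mul_le_mul_of_nonneg_left ?_ hpj0
  rw [abs_le]
  constructor <;> linarith [a1.1, a1.2, a2.1, a2.2]

end Pool.Agent.Helper85.HQ.PSI
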