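import Pool.Agent.Helper98.HQ.Spec

/-!
# HQ, part QF: coalescence with positive probability
-/

set_option autoImplicit false

open MeasureTheory Filter Topology
open scoped ENNReal NNReal
open Pool.Agent.Helper98.HQ

namespace Pool.Agent.Helper85.HQ.QF

lemma pth_cns {k : ℕ} (x : Fin k → ℝ) (u : ℝ × ℝ) (ω : ℕ → ℝ × ℝ) (n : ℕ) :
    pth (fun _ => 1) x (cns u ω) (n + 1) = pth (fun _ => 1) (stp 1 x u) ω n := by
  induction n with
  | zero => rfl
  | succ n ih =>
    change stp 1 (pth (fun _ => 1) x (cns u ω) (n + 1)) (ω n) = _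
    rw [ih]
    rfl

lemma neq_le_one {k : ℕ} (z : (Fin k → ℝ) × (Fin k → ℝ)) : neq z ≤ 1 := by
  unfold neq
  split_ifs
  · exact zero_le_one
  · exact le_rfl

lemma opp_le_one {k : ℕ} (ν : Measure (ℝ × ℝ)) [IsProbabilityMeasure ν] (n : ℕ) :
    ∀ z : (Fin k → ℝ) × (Fin k → ℝ), (opp ν)^[n] neq z ≤ 1 := by
  induction n with
  | zero => exact neq_le_one
  | succ n ih =>
    intro z
    rw [Function.iterate_succ_apply']
    calc ∫⁻ u, (opp ν)^[n] neq (stp 1 z.1 u, stp 1 z.2 u) ∂ν ≤ ∫⁻ _, 1 ∂ν :=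
          lintegral_mono fun u => ih _
      _ = 1 := by simp

theorem main (hFORCE : S_FORCE) (hPOS : S_POS) : S_QF := by
  intro k ν R hk hI hR
  have hprob := hI.prob
  obtain ⟨s0, t0, hs0, ht0, hst, hpos⟩ := hPOS k ν hk hI
  set G : Set (ℝ × ℝ) := {u : ℝ × ℝ | 0 ≤ u.2 ∧ u.2 ≤ s0 ∧ t0 ≤ u.1} with hG
  have hGm : MeasurableSet G :=
    (measurableSet_le measurable_const measurable_snd).inter
      ((measurableSet_le measurable_snd measurable_const).inter
        (measurableSet_le measurable_const measurable_fst))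
  obtain ⟨n, hn⟩ := hFORCE k s0 t0 R hk hs0 ht0 hst hR
  set g : ℝ≥0∞ := ν G with hg
  have hg1 : g ≤ 1 := prob_le_one
  have key : ∀ (n : ℕ) (x y : Fin k → ℝ),
      (∀ ω : ℕ → ℝ × ℝ, (∀ j, 0 ≤ (ω j).2 ∧ (ω j).2 ≤ s0 ∧ t0 ≤ (ω j).1) →
        pth (fun _ => 1) x ω n = pth (fun _ => 1) y ω n) →
      (opp ν)^[n] neq (x, y) ≤ 1 - g ^ n := by
    intro n
    induction n with
    | zero =>
      intro x y h
      have h0 : x = y := h (fun _ => (t0, 0)) (fun _ => ⟨le_rfl, hs0, le_rfl⟩)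
      subst h0
      simp [neq]
    | succ n ih =>
      intro x y h
      rw [Function.iterate_succ_apply']
      have hgn : g ^ n ≤ 1 := pow_le_one' hg1 n
      have h1 : opp ν ((opp ν)^[n] neq) (x, y) ≤ (1 - g ^ n) * g + (1 - g) := by
        change ∫⁻ u, (opp ν)^[n] neq (stp 1 x u, stp 1 y u) ∂ν ≤ _
        rw [← lintegral_add_compl _ hGm]
        refine add_le_add ?_ ?_
        · calc ∫⁻ u in G, (opp ν)^[n] neq (stp 1 x u, stp 1 y u) ∂ν
              ≤ ∫⁻ _ in G, (1 - g ^ n) ∂ν := by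
                refine setLIntegral_mono' hGm fun u hu => ih _ _ fun ω hω => ?_
                rw [← pth_cns, ← pth_cns]
                refine h _ fun j => ?_
                cases j with
                | zero => exact hu
                | succ j => exact hω j
            _ = (1 - g ^ n) * g := by rw [setLIntegral_const]
        · calc ∫⁻ u in Gᶜ, (opp ν)^[n] neq (stp 1 x u, stp 1 y u) ∂ν
              ≤ ∫⁻ _ in Gᶜ, 1 ∂ν := setLIntegral_mono' hGm.compl fun u _ => opp_le_one ν n _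
            _ = 1 - g := by rw [setLIntegral_const, one_mul, prob_compl_eq_one_sub hGm]
      refine h1.trans ?_
      refine ENNReal.le_sub_of_add_le_right
        (ne_top_of_le_ne_top ENNReal.one_ne_top (pow_le_one' hg1 _)) ?_
      have h2 : (1 - g ^ n) * g + (1 - g) + g ^ (n + 1) =
          ((1 - g ^ n) + g ^ n) * g + (1 - g) := by
        rw [pow_succ]; ring
      rw [h2, tsub_add_cancel_of_le hgn, one_mul, add_tsub_cancel_of_le hg1]
  have hgn1 : g ^ n ≤ 1 := pow_le_one' hg1 n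
  have hgt : g ^ n ≠ ∞ := ne_top_of_le_ne_top ENNReal.one_ne_top hgn1
  have hθ0 : 0 < (g ^ n).toReal := ENNReal.toReal_pos (pow_ne_zero n hpos.ne') hgt
  have hθ1 : (g ^ n).toReal ≤ 1 := by
    have := ENNReal.toReal_mono ENNReal.one_ne_top hgn1
    simpa using this
  refine ⟨n, (g ^ n).toReal, hθ0, hθ1, fun x y hx hy hxR hyR => ?_⟩
  rw [ENNReal.ofReal_sub _ hθ0.le, ENNReal.ofReal_one, ENNReal.ofReal_toReal hgt]
  exact key n x y fun ω hω => hn ω hω x y hx hy hxR hyR

end Pool.Agent.Helper85.HQ.QF
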