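import Pool.Agent.Helper98.HQ.Spec

/-!
# HQ, part UNQ: uniqueness of the stationary distribution
-/

set_option autoImplicit false

open MeasureTheory Filter Topology
open scoped ENNReal NNReal
open Pool.Agent.Helper98.HQ

namespace Pool.Agent.Helper85.HQ.UNQ

variable {k : ℕ}

lemma bad_meas (R : ℝ) : MeasurableSet {x : Fin k → ℝ | ∀ i, x i ≤ R}ᶜ := by
  refine MeasurableSet.compl ?_
  have : {x : Fin k → ℝ | ∀ i, x i ≤ R} = ⋂ i, {x | x i ≤ R} := by ext x; simp
  rw [this]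
  exact MeasurableSet.iInter fun i => measurableSet_le (measurable_pi_apply i) measurable_const

lemma tail (π : Measure (Fin k → ℝ)) [IsProbabilityMeasure π] {δ : ℝ} (hδ : 0 < δ) :
    ∃ n0 : ℕ, ∀ n : ℕ, n0 ≤ n → π {x | ∀ i, x i ≤ (n : ℝ)}ᶜ ≤ ENNReal.ofReal δ := by
  have hanti : Antitone fun n : ℕ => {x : Fin k → ℝ | ∀ i, x i ≤ (n : ℝ)}ᶜ := by
    intro m n hmn
    refine Set.compl_subset_compl.2 fun x hx i => (hx i).trans ?_
    exact_mod_cast hmn
  have h1 := tendsto_measure_iInter_atTop (μ := π)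
    (fun n : ℕ => (bad_meas (k := k) (n : ℝ)).nullMeasurableSet) hanti ⟨0, measure_ne_top _ _⟩
  have h2 : ⋂ n : ℕ, {x : Fin k → ℝ | ∀ i, x i ≤ (n : ℝ)}ᶜ = ∅ := by
    rw [Set.eq_empty_iff_forall_notMem]
    intro x hx
    obtain ⟨n, hn⟩ := exists_nat_ge (∑ i, |x i|)
    have := Set.mem_iInter.1 hx n
    refine this fun i => ?_
    calc x i ≤ |x i| := le_abs_self _
      _ ≤ ∑ i, |x i| := Finset.single_le_sum (f := fun i => |x i|) (fun i _ => abs_nonneg _)
        (Finset.mem_univ i)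
      _ ≤ n := hn
  rw [h2, measure_empty] at h1
  have h3 := (tendsto_order.1 h1).2 (ENNReal.ofReal δ) (ENNReal.ofReal_pos.2 hδ)
  obtain ⟨n0, hn0⟩ := eventually_atTop.1 h3
  exact ⟨n0, fun n hn => (hn0 n hn).le⟩

lemma op_le_one (ν : Measure (ℝ × ℝ)) [IsProbabilityMeasure ν] (φ : (Fin k → ℝ) → ℝ≥0∞)
    (hφ : ∀ x, φ x ≤ 1) (n : ℕ) : ∀ x, (op ν 1)^[n] φ x ≤ 1 := by
  induction n with
  | zero => exact hφ
  | succ n ih =>
    intro x
    rw [Function.iterate_succ_apply']
    calc ∫⁻ u, (op ν 1)^[n] φ (stp 1 x u) ∂ν ≤ ∫⁻ _, 1 ∂ν := lintegral_mono fun u => ih _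
      _ = 1 := by simp

lemma half (ν : Measure (ℝ × ℝ)) (hCPL : S_CPL) [IsProbabilityMeasure ν]
    (π : Measure (Fin k → ℝ)) [IsProbabilityMeasure π] (hadm : ∀ᵐ w ∂π, Adm w)
    (φ : (Fin k → ℝ) → ℝ≥0∞) (hm : Measurable φ) (hφ : ∀ x, φ x ≤ 1) (n : ℕ) (R : ℝ)
    (D : ℝ≥0∞) (hn : ∀ x : Fin k → ℝ, Adm x → (∀ i, x i ≤ R) →
      (opp ν)^[n] neq (0, x) ≤ D ∧ (opp ν)^[n] neq (x, 0) ≤ D)
    (hR : π {x | ∀ i, x i ≤ R}ᶜ ≤ D) :
    ∫⁻ x, (op ν 1)^[n] φ x ∂π ≤ (op ν 1)^[n] φ 0 + (D + D) ∧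
    (op ν 1)^[n] φ 0 ≤ ∫⁻ x, (op ν 1)^[n] φ x ∂π + (D + D) := by
  set f := (op ν 1)^[n] φ with hf
  have hf1 : ∀ x, f x ≤ 1 := op_le_one ν φ hφ n
  set bad : Set (Fin k → ℝ) := {x | ∀ i, x i ≤ R}ᶜ with hbad
  have hbm : MeasurableSet bad := bad_meas R
  have hind : ∫⁻ x, (D + bad.indicator 1 x) ∂π ≤ D + D := by
    rw [lintegral_add_left measurable_const, lintegral_indicator_one hbm]
    simp only [lintegral_const, measure_univ, mul_one]
    exact add_le_add le_rfl hR
  have hindm : Measurable fun x : Fin k → ℝ => D + bad.indicator 1 x :=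
    measurable_const.add (measurable_const.indicator hbm)
  constructor
  · calc ∫⁻ x, f x ∂π ≤ ∫⁻ x, (f 0 + (D + bad.indicator 1 x)) ∂π := by
          refine lintegral_mono_ae ?_
          filter_upwards [hadm] with x hx
          by_cases hxR : ∀ i, x i ≤ R
          · calc f x ≤ f 0 + (opp ν)^[n] neq (x, 0) := hCPL k ν φ n x 0 inferInstance hm hφ
              _ ≤ f 0 + D := add_le_add le_rfl (hn x hx hxR).2
              _ ≤ _ := add_le_add le_rfl le_self_add
          · have : x ∈ bad := hxR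
            rw [Set.indicator_of_mem this]
            calc f x ≤ 1 := hf1 x
              _ ≤ f 0 + (D + 1) := by
                rw [← add_assoc]; exact le_add_self
      _ = f 0 + ∫⁻ x, (D + bad.indicator 1 x) ∂π := by
          rw [lintegral_add_left measurable_const]; simp
      _ ≤ _ := add_le_add le_rfl hind
  · calc f 0 = ∫⁻ _, f 0 ∂π := by simp
      _ ≤ ∫⁻ x, (f x + (D + bad.indicator 1 x)) ∂π := by
          refine lintegral_mono_ae ?_
          filter_upwards [hadm] with x hx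
          by_cases hxR : ∀ i, x i ≤ R
          · calc f 0 ≤ f x + (opp ν)^[n] neq (0, x) := hCPL k ν φ n 0 x inferInstance hm hφ
              _ ≤ f x + D := add_le_add le_rfl (hn x hx hxR).1
              _ ≤ _ := add_le_add le_rfl le_self_add
          · have : x ∈ bad := hxR
            rw [Set.indicator_of_mem this]
            calc f 0 ≤ 1 := hf1 0
              _ ≤ f x + (D + 1) := by
                rw [← add_assoc]; exact le_add_self
      _ = ∫⁻ x, f x ∂π + ∫⁻ x, (D + bad.indicator 1 x) ∂π := lintegral_add_right _ hindm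
      _ ≤ _ := add_le_add le_rfl hind

theorem main (hTEL : S_TEL) (hCPL : S_CPL) (hCOAL : S_COAL) (hRED1 : S_RED1) (hRED2 : S_RED2) :
    S_UNQ := by
  have one : ∀ (k : ℕ) (μT μS : Measure ℝ) (π π' : Measure (Fin k → ℝ)), 1 ≤ k →
      Sys k μT μS → IsStat k μT μS π → IsStat k μT μS π' →
      ∀ (L : ℝ) (φ : (Fin k → ℝ) → ℝ≥0∞), 0 ≤ L → Measurable φ → (∀ x, φ x ≤ 1) → Lip L φ →
      ∫⁻ w, φ w ∂π ≤ ∫⁻ w, φ w ∂π' := by
    intro k μT μS π π' hk hS h h' L φ hL hm hφ hLip
    obtain ⟨m, rfl⟩ : ∃ m, k = m + 1 := ⟨k - 1, by omega⟩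
    obtain ⟨hI, _⟩ := hRED1 _ μT μS hS
    have hst := hRED2 _ μT μS π hS h
    have hst' := hRED2 _ μT μS π' hS h'
    have := hI.prob
    have := hst.prob
    have := hst'.prob
    refine ENNReal.le_of_forall_pos_le_add fun ε hε _ => ?_
    have hδ : 0 < (ε : ℝ) / 4 := by positivity
    obtain ⟨n1, hn1⟩ := tail π hδ
    obtain ⟨n2, hn2⟩ := tail π' hδ
    have hR1 := hn1 (max n1 n2) (le_max_left _ _)
    have hR2 := hn2 (max n1 n2) (le_max_right _ _)
    obtain ⟨n, hn⟩ := hCOAL m (μT.prod μS) ((max n1 n2 : ℕ) : ℝ) ((ε : ℝ) / 4) hI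
      (Nat.cast_nonneg _) hδ
    have e1 := (hTEL _ (μT.prod μS) 0 1 1 L π φ n hI le_rfl zero_le_one zero_le_one le_rfl hL hst
      hm hφ hLip).1
    have e2 := (hTEL _ (μT.prod μS) 0 1 1 L π' φ n hI le_rfl zero_le_one zero_le_one le_rfl hL
      hst' hm hφ hLip).2
    simp only [sub_self, mul_zero, zero_mul, add_zero, ENNReal.ofReal_zero] at e1 e2
    have f1 := (half (μT.prod μS) hCPL π hst.adm φ hm hφ n _ _ hn hR1).1
    have f2 := (half (μT.prod μS) hCPL π' hst'.adm φ hm hφ n _ _ hn hR2).2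
    have hD : ENNReal.ofReal ((ε : ℝ) / 4) + ENNReal.ofReal ((ε : ℝ) / 4) +
        (ENNReal.ofReal ((ε : ℝ) / 4) + ENNReal.ofReal ((ε : ℝ) / 4)) = ε := by
      rw [← ENNReal.ofReal_add hδ.le hδ.le, ← ENNReal.ofReal_add (by positivity) (by positivity)]
      have : (ε : ℝ) / 4 + ε / 4 + (ε / 4 + ε / 4) = ε := by ring
      rw [this, ENNReal.ofReal_coe_nnreal]
    calc ∫⁻ w, φ w ∂π ≤ _ := e1
      _ ≤ _ := f1
      _ ≤ (∫⁻ x, (op (μT.prod μS) 1)^[n] φ x ∂π' + _) + _ := add_le_add f2 le_rfl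
      _ ≤ (∫⁻ x, φ x ∂π' + _) + _ := add_le_add (add_le_add e2 le_rfl) le_rfl
      _ = _ := by rw [add_assoc, hD]
  intro k μT μS π π' hk hS h h'
  have := h.prob
  have := h'.prob
  have key : ∀ F : Set (Fin k → ℝ), IsClosed F → π F = π' F := by
    intro F hF
    have hpos : ∀ n : ℕ, (0 : ℝ) < 1 / ((n : ℝ) + 1) := fun n => by positivity
    have t1 := tendsto_lintegral_thickenedIndicator_of_isClosed π hF hpos
      tendsto_one_div_add_atTop_nhds_zero_nat
    have t2 := tendsto_lintegral_thickenedIndicator_of_isClosed π' hF hpos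
      tendsto_one_div_add_atTop_nhds_zero_nat
    have heq : ∀ n : ℕ, ∫⁻ w, (thickenedIndicator (hpos n) F w : ℝ≥0∞) ∂π =
        ∫⁻ w, (thickenedIndicator (hpos n) F w : ℝ≥0∞) ∂π' := by
      intro n
      have hm : Measurable fun w => (thickenedIndicator (hpos n) F w : ℝ≥0∞) :=
        (thickenedIndicator (hpos n) F).continuous.measurable.coe_nnreal_ennreal
      have h1 : ∀ w, (thickenedIndicator (hpos n) F w : ℝ≥0∞) ≤ 1 := fun w => by
        exact_mod_cast thickenedIndicator_le_one (hpos n) F w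
      have hLw := lipschitzWith_thickenedIndicator (hpos n) F
      obtain ⟨K, hK⟩ : ∃ K : ℝ≥0, LipschitzWith K (thickenedIndicator (hpos n) F) := ⟨_, hLw⟩
      have hLip : Lip (K : ℝ) fun w => (thickenedIndicator (hpos n) F w : ℝ≥0∞) := by
        intro x y
        have d1 := hK.dist_le_mul x y
        have d2 : dist x y ≤ ∑ i, |x i - y i| := by
          refine (dist_pi_le_iff (Finset.sum_nonneg fun i _ => abs_nonneg _)).2 fun i => ?_
          rw [Real.dist_eq]
          exact Finset.single_le_sum (f := fun i => |x i - y i|) (fun i _ => abs_nonneg _)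
            (Finset.mem_univ i)
        have d3 : (thickenedIndicator (hpos n) F x : ℝ) ≤
            thickenedIndicator (hpos n) F y + K * ∑ i, |x i - y i| := by
          rw [NNReal.dist_eq] at d1
          have := (abs_le.1 d1).2
          have := mul_le_mul_of_nonneg_left d2 K.coe_nonneg
          linarith
        have d4 := ENNReal.ofReal_le_ofReal d3
        rwa [ENNReal.ofReal_add (NNReal.coe_nonneg _) (mul_nonneg K.coe_nonneg
          (Finset.sum_nonneg fun i _ => abs_nonneg _)), ENNReal.ofReal_coe_nnreal,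
          ENNReal.ofReal_coe_nnreal] at d4
      exact le_antisymm (one k μT μS π π' hk hS h h' K _ K.coe_nonneg hm h1 hLip)
        (one k μT μS π' π hk hS h' h K _ K.coe_nonneg hm h1 hLip)
    simp_rw [heq] at t1
    exact tendsto_nhds_unique t1 t2
  refine ext_of_generate_finite _ ?_ isPiSystem_isClosed (fun F hF => key F hF) (key _ isClosed_univ)
  rw [BorelSpace.measurable_eq (α := Fin k → ℝ), borel_eq_generateFrom_isClosed]

end Pool.Agent.Helper85.HQ.UNQ
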